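import Pool.Agent.Helper62.IMU.Poly
import Pool.Agent.Helper31.EC.Real
import Pool.Agent.Helper81.MT.Glb
import Pool.Agent.Helper81.MT.Trn
import Pool.Agent.Helper89.MG.Typf

/-! [IMU] MULTI-TYPE LAYER: image of a system of leaves under a polynomial map which is known to the base and has
ARBITRARY coefficients. The map is assumed to be tame at the point, and to be known up to `2^(-rn)` from the point up to
`2^(-n)`, on a typical event. The image is truncated to the level `r` and lives on a typical event. The leaves and their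
parameters do not change. -/

set_option autoImplicit false

namespace Pool.Agent.Helper84.MT

open Finset Filter Topology Matrix Pool.Agent.Helper69.RK Pool.Agent.Helper31.EC Pool.Agent.Helper31.EC.Sp
open Pool.Agent.Helper40.EL Pool.Agent.Helper89.LX Pool.Agent.Helper3.LF
open Pool.Agent.Helper52.SL (untF tnF untL tnL nul_trn cellv_chg)

noncomputable section

variable {S T : Sp} {M M' κ : ℕ} {E E' : ℕ → ℕ} {ι : Type} {r : ℝ}

/-- A POLYNOMIAL MAP of degree at most `κ` from `R ^ M` to `R ^ M'`, known to the base, with ARBITRARY coefficients. At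
the point `Q` it is typically tame and typically known up to `2^(-rn)` from the point up to `2^(-n)`. -/
structure UMap (S : Sp) {M : ℕ} (Q : S.VV M) (M' κ : ℕ) (r : ℝ) where
  G : ∀ k, (S.F k).Ω → Fin M' → MvPolynomial (Fin M) ℝ
  deg : ∀ k ω j, (G k ω j).totalDegree ≤ κ
  fn : ∀ᶠ k in UF, ∀ ω ω', (S.F k).μ ω ≠ 0 → (S.F k).μ ω' ≠ 0 → (S.F k).Z ω ω' → G k ω = G k ω'
  K : ℕ → ℝ
  sub : S.Sub K
  typ : Typ fun k ω => ∀ j, |MvPolynomial.eval (Q.v k ω) (G k ω j)| ≤ K k ∧
    ∀ x : Fin M → ℝ, (∀ i, |x i - Q.v k ω i| ≤ S.dl 1 k) →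
      |MvPolynomial.eval x (G k ω j) - MvPolynomial.eval (Q.v k ω) (G k ω j)| ≤ K k * S.dl r k

/-- countable families of typical events -/
theorem typ_count [Countable ι] (A : ι → ∀ k, (S.F k).Ω → Prop) (h : ∀ i, Typ (A i)) :
    ∃ B : ∀ k, (S.F k).Ω → Prop, Typ B ∧ ∀ i, ∀ᶠ k in UF, ∀ ω, B k ω → A i k ω := by
  obtain ⟨f, hf⟩ := exists_injective_nat ι
  have h1 : ∀ j : ℕ, Typ (S := S) (fun k ω => ∀ i, f i < j → A i k ω) := by
    intro j
    induction j with
    | zero =>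
      refine Typ_true.mono (Eventually.of_forall fun k ω _ _ i hi => ?_)
      exact absurd hi (Nat.not_lt_zero _)
    | succ j ih =>
      by_cases hj : ∃ i, f i = j
      · obtain ⟨i, hi⟩ := hj
        refine (ih.and (h i)).mono (Eventually.of_forall fun k ω _ ha i' hi' => ?_)
        rcases Nat.lt_succ_iff_lt_or_eq.mp hi' with h2 | h2
        · exact ha.1 i' h2
        · have : i' = i := hf (h2.trans hi.symm)
          rw [this]
          exact ha.2
      · refine ih.mono (Eventually.of_forall fun k ω _ ha i' hi' => ?_)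
        rcases Nat.lt_succ_iff_lt_or_eq.mp hi' with h2 | h2
        · exact ha i' h2
        · exact absurd ⟨i', h2⟩ hj
  obtain ⟨J, hJ, hT⟩ := Sp.typ_diag (fun j k ω => ∀ i, f i < j → A i k ω) h1
  refine ⟨_, hT, fun i => ?_⟩
  filter_upwards [hJ.eventually_gt_atTop (f i)] with k hk ω hω
  exact hω i hk

/-- the chart of the image is typically tame on the closed cube, and it hits the image of the point -/
theorem UMap.chart {Q : S.VV M} (U : UMap S Q M' κ r) (l : Leaf S Q E) (hr : 0 ≤ r) : ∃ K : ℕ → ℝ, S.Sub K ∧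
    Typ (fun k ω => ∀ j, |MvPolynomial.eval (Q.v k ω) (U.G k ω j) -
      MvPolynomial.eval (l.F k ω (l.Y.v k ω)) (U.G k ω j)| ≤ K k * S.dl r k ∧
      ∀ y : Fin l.e → ℝ, (∀ i, |y i - l.Y.v k ω i| ≤ 1) → |MvPolynomial.eval (l.F k ω y) (U.G k ω j)| ≤ K k) := by
  classical
  -- precision at the point
  obtain ⟨B, hB1, hB⟩ := seg_mv κ M
  obtain ⟨L, hL, hpt⟩ := l.pt
  set K1 : ℕ → ℝ := fun k => B * ((κ + 1) * (L k + 1)) ^ κ * U.K k with hK1
  have hK1s : S.Sub K1 :=
    ((S.Sub_const (by linarith)).mul (Sub_pow' ((S.Sub_const (by positivity)).mul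
      (hL.add (S.Sub_const zero_le_one))) _)).mul U.sub
  have hP : Typ (fun k ω => ∀ j, |MvPolynomial.eval (Q.v k ω) (U.G k ω j) -
      MvPolynomial.eval (l.F k ω (l.Y.v k ω)) (U.G k ω j)| ≤ K1 k * S.dl r k ∧
      |MvPolynomial.eval (Q.v k ω) (U.G k ω j)| ≤ U.K k) := by
    refine U.typ.mono ?_
    filter_upwards [hpt, hL.1, U.sub.1] with k h1 hL0 hK0 ω hω h2 j
    refine ⟨?_, (h2 j).1⟩
    have h3 := ev_near hB1 hB (U.G k ω j) (U.deg k ω j) (Q.v k ω) (S.dl_pos 1 k).le (L := L k + 1) (by linarith)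
      (h2 j).2 (l.F k ω (l.Y.v k ω)) (fun i => by
        have h4 := h1 ω hω i
        rw [abs_sub_comm]
        refine h4.trans ?_
        exact mul_le_mul_of_nonneg_right (by linarith) (S.dl_pos 1 k).le)
    rw [abs_sub_comm]
    refine h3.trans (le_of_eq ?_)
    rw [hK1]
    ring
  -- values on the open cube
  have hax : ∀ j : Fin M', ∃ (K' : ℕ → ℝ) (H : ∀ k, (S.F k).Ω → Prop), S.Sub K' ∧ Typ H ∧ ∀ᶠ k in UF, ∀ ω,
      (S.F k).μ ω ≠ 0 → H k ω → ∀ y : Fin l.e → ℝ, (∀ i, |y i - l.Y.v k ω i| < 1) →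
        |MvPolynomial.eval (l.F k ω y) (U.G k ω j)| ≤
          K' k * |MvPolynomial.eval (l.F k ω (l.Y.v k ω)) (U.G k ω j)| := by
    intro j
    obtain ⟨K, hK, hs⟩ := leaf_axS l κ
    apply typd0 l (fun k ω y => MvPolynomial.eval (l.F k ω y) (U.G k ω j)) (E κ) K hK
    · filter_upwards [l.fn, U.fn] with k h1 h2 ω ω' a b z la
      funext y
      rw [h1 ω ω' a b z la, h2 ω ω' a b z]
    · filter_upwards [hs, l.eval_mem κ] with k h1 h2 ω hω
      exact h1 ω hω _ (h2 ω hω _ (U.deg k ω j))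
  choose K2 H2 hK2 hT2 hb2 using hax
  obtain ⟨K3, hK3, hs3⟩ := l.seg κ
  -- the constant
  set K4 : ℕ → ℝ := fun k => K3 k * (2 * (E κ + 1)) ^ (E κ) * ((∑ j, K2 j k) * (U.K k + K1 k)) with hK4
  have hsum : S.Sub (fun k => ∑ j, K2 j k) := by
    have : ∀ s : Finset (Fin M'), S.Sub (fun k => ∑ j ∈ s, K2 j k) := by
      intro s
      induction s using Finset.induction_on with
      | empty => simpa using S.Sub_const (le_refl (0 : ℝ))
      | insert a s ha ih =>
        simp only [Finset.sum_insert ha]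
        exact (hK2 a).add ih
    exact this Finset.univ
  have hK4s : S.Sub K4 :=
    (hK3.mul (S.Sub_const (by positivity))).mul (hsum.mul (U.sub.add hK1s))
  have hall : Typ (fun k ω => ∀ j, H2 j k ω) := by
    obtain ⟨B', hB', h⟩ := typ_count H2 hT2
    refine hB'.mono ?_
    have h5 : ∀ᶠ k in UF, ∀ j, ∀ ω, B' k ω → H2 j k ω := Filter.eventually_all.mpr h
    filter_upwards [h5] with k hk ω _ hω j
    exact hk j ω hω
  refine ⟨fun k => K1 k + K4 k, hK1s.add hK4s, (hP.and hall).mono ?_⟩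
  have hev : ∀ᶠ k in UF, ∀ j, ∀ ω, (S.F k).μ ω ≠ 0 → H2 j k ω → ∀ y : Fin l.e → ℝ,
      (∀ i, |y i - l.Y.v k ω i| < 1) → |MvPolynomial.eval (l.F k ω y) (U.G k ω j)| ≤
        K2 j k * |MvPolynomial.eval (l.F k ω (l.Y.v k ω)) (U.G k ω j)| := Filter.eventually_all.mpr hb2
  have hK20 : ∀ᶠ k in UF, ∀ j, 0 ≤ K2 j k := Filter.eventually_all.mpr fun j => (hK2 j).1
  filter_upwards [hev, hs3, l.eval_mem κ, hK20, hK3.1, hK1s.1, hK4s.1, U.sub.1] with k g1 g2 g3 g4 g5 g6 g7 g8 ω hω h j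
  have hdr := S.dl_pos r k
  have hdr1 : S.dl r k ≤ 1 := by
    rw [← S.dl_zero k]
    exact S.dl_anti hr k
  refine ⟨(h.1 j).1.trans (mul_le_mul_of_nonneg_right (by linarith) hdr.le), fun y hy => ?_⟩
  have hval : |MvPolynomial.eval (l.F k ω (l.Y.v k ω)) (U.G k ω j)| ≤ U.K k + K1 k := by
    have h6 := (h.1 j).1
    have h7 := (h.1 j).2
    have h8 : K1 k * S.dl r k ≤ K1 k := by nlinarith
    have e1 : MvPolynomial.eval (l.F k ω (l.Y.v k ω)) (U.G k ω j) = MvPolynomial.eval (Q.v k ω) (U.G k ω j) -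
        (MvPolynomial.eval (Q.v k ω) (U.G k ω j) - MvPolynomial.eval (l.F k ω (l.Y.v k ω)) (U.G k ω j)) := by ring
    rw [e1]
    refine (abs_sub _ _).trans ?_
    linarith
  have hopen : ∀ y : Fin l.e → ℝ, (∀ i, |y i - l.Y.v k ω i| < 1) → |MvPolynomial.eval (l.F k ω y) (U.G k ω j)| ≤
      (∑ j, K2 j k) * (U.K k + K1 k) := by
    intro y hy
    refine (g1 j ω hω (h.2 j) y hy).trans ?_
    apply mul_le_mul (Finset.single_le_sum (fun j _ => g4 j) (Finset.mem_univ j)) hval (abs_nonneg _)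
    exact Finset.sum_nonneg fun j _ => g4 j
  have h9 := closed_of_open (g2 ω hω _ (g3 ω hω _ (U.deg k ω j)) (l.Y.v k ω) y
    (fun i => by rw [sub_self, abs_zero]; exact zero_le_one) hy).1 hy hopen
  refine h9.trans ?_
  show _ ≤ K1 k + K4 k
  have : K3 k * (2 * ((E κ : ℝ) + 1)) ^ E κ * ((∑ j, K2 j k) * (U.K k + K1 k)) = K4 k := rfl
  linarith

end

end Pool.Agent.Helper84.MT
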