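import Pool.Agent.Helper62.IMU.Sys

/-! [IMU] windows and labels of the image. -/

set_option autoImplicit false

namespace Pool.Agent.Helper84.MT

open Finset Filter Topology Matrix Pool.Agent.Helper69.RK Pool.Agent.Helper31.EC Pool.Agent.Helper31.EC.Sp
open Pool.Agent.Helper40.EL Pool.Agent.Helper89.LX Pool.Agent.Helper3.LF
open Pool.Agent.Helper52.SL (untF tnF untL tnL nul_trn cellv_chg)

noncomputable section

variable {S T : Sp} {M M' κ κ' : ℕ} {E E' : ℕ → ℕ} {ι : Type} {r : ℝ}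

section
variable [Countable ι] {s : MSys S M E ι} {U : UMap S s.Q M' κ r} {h0 : 0 < r} {h1 : r ≤ 1} {hκ : 1 ≤ κ}
  {hE : ∀ D, E (κ * D) ≤ E' D}

/-- the conditions of the image in the space of the event -/
def MSys.cndu (s : MSys S M E ι) (U : UMap S s.Q M' κ r) (h0 : 0 < r) (c : ℝ) :
    Option ι → Part (S.rest (U.A h0.le))
  | none => pcr (U.pt h0.le) r
  | some i => ((s.lf i).rst (U.A h0.le) (U.A_pos h0.le)).win (r * c)

/-- the leaks of a label of the image -/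
theorem MSys.imu_leak (c : ℝ) (l : Lab ((S.rest (U.A h0.le)).chg (S.rest (U.A h0.le)).tr r h0)) (i : Option ι) (k : ℕ) :
    (l k).leak ((s.imu U h0 h1 hκ hE).cnd c i k) = ((untL l) k).leak (s.cndu U h0 c i k) := by
  rcases i with _ | i
  · have e1 : ((U.pt h0.le).chg (S.rest (U.A h0.le)).tr r h0).cellv 1 k = (U.pt h0.le).cellv r k :=
      (cellv_chg (U.pt h0.le) r h0 1 k).trans (by rw [mul_one])
    exact congrArg (fun f => FLab.leak (F := ((S.rest (U.A h0.le)).F k).chg ⊤ r h0) (l k) (fc (Setoid.ker f))) e1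
  · exact (MSys.trn_leak (s.rst (U.A h0.le) (U.A_pos h0.le)) (h0 := h0) (h1 := h1) c l (some i) k)

/-- LABELS OF THE IMAGE -/
theorem MSys.DMc_imu_iff {c : ℝ} {l : Lab ((S.rest (U.A h0.le)).chg (S.rest (U.A h0.le)).tr r h0)} :
    (s.imu U h0 h1 hκ hE).DMc c l ↔ (untL l).DMf (s.cndu U h0 c) := by
  constructor
  · intro h i
    have h2 := nul_trn.mp (h i)
    have e1 : (fun k => ((untL l) k).leak (s.cndu U h0 c i k)) =
        fun k => (l k).leak ((s.imu U h0 h1 hκ hE).cnd c i k) := funext fun k => (MSys.imu_leak c l i k).symm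
    rw [e1]
    exact h2
  · intro h i
    apply nul_trn.mpr
    have e1 : (fun k => (l k).leak ((s.imu U h0 h1 hκ hE).cnd c i k)) =
        fun k => ((untL l) k).leak (s.cndu U h0 c i k) := funext fun k => MSys.imu_leak c l i k
    rw [e1]
    exact h i

theorem MSys.DMc_imu_tnL {c : ℝ} {l : Lab (S.rest (U.A h0.le))} (h : l.DMf (s.cndu U h0 c)) :
    (s.imu U h0 h1 hκ hE).DMc c (tnL r h0 l) := by
  rw [MSys.DMc_imu_iff, untL_tnL]
  exact h

/-- maximal labels of the image -/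
theorem MSys.IsKap_imu_iff {c : ℝ} {l : Lab ((S.rest (U.A h0.le)).chg (S.rest (U.A h0.le)).tr r h0)} :
    (s.imu U h0 h1 hκ hE).IsKap c l ↔ (untL l).IsMaxf (s.cndu U h0 c) := by
  have hub : ∀ {l : Lab ((S.rest (U.A h0.le)).chg (S.rest (U.A h0.le)).tr r h0)}, (s.imu U h0 h1 hκ hE).DMc c l →
      UB (fun k => (l k).info / (((S.rest (U.A h0.le)).chg (S.rest (U.A h0.le)).tr r h0).F k).n) := fun h =>
    Lab.DMf.ub h (i := none) (pcd_Bd (s.imu U h0 h1 hκ hE).Q)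
  constructor
  · intro h
    refine ⟨MSys.DMc_imu_iff.mp h.1, fun l' hl' => ?_⟩
    have h2 := MSys.DMc_imu_tnL (h0 := h0) (h1 := h1) (hκ := hκ) (hE := hE) hl'
    have h3 := h.2 _ h2
    have h4 := Pool.Agent.Helper52.SL.untL_info _ (hub h2)
    rw [untL_tnL] at h4
    rw [h4, Pool.Agent.Helper52.SL.untL_info _ (hub h.1)]
    exact mul_le_mul_of_nonneg_left h3 h0.le
  · intro h
    have h1' : (s.imu U h0 h1 hκ hE).DMc c l := MSys.DMc_imu_iff.mpr h.1
    refine ⟨h1', fun l' hl' => ?_⟩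
    have h2 := h.2 _ (MSys.DMc_imu_iff.mp hl')
    rw [Pool.Agent.Helper52.SL.untL_info _ (hub h1'), Pool.Agent.Helper52.SL.untL_info _ (hub hl')] at h2
    exact le_of_mul_le_mul_left h2 h0

/-- the new point up to `2^(-rn)` is a function of the point -/
theorem UMap.pt_PLe (U : UMap S s.Q M' κ r) (hr : 0 ≤ r) : PLe (pcr (U.pt hr) r) (pcd (s.Q.rest (U.A hr))) := by
  refine PLe_cell (S := S.rest (U.A hr)) (U.pt hr) r (fun k => Setoid.ker ((s.Q.rest (U.A hr)).cellv 1 k)) U.K U.sub ?_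
  filter_upwards [U.A_supp hr, U.fn] with k h1 h2 ω ω' a b z c j
  obtain ⟨a1, a2⟩ := h1 ω a
  obtain ⟨b1, b2⟩ := h1 ω' b
  have h3 : U.G k ω = U.G k ω' := h2 ω ω' a1 b1 z
  have h4 := (a2.1 j).2 (s.Q.v k ω') (fun i => by
    rw [abs_sub_comm]
    exact abs_sub_le_of_floor_eq (S.dl_pos 1 k) (congrFun c i))
  show |MvPolynomial.eval (s.Q.v k ω) (U.G k ω j) - MvPolynomial.eval (s.Q.v k ω') (U.G k ω' j)| ≤ _
  rw [← h3, abs_sub_comm]
  exact h4

/-- the conditions of the image are functions of the conditions of the system -/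
theorem MSys.cndu_le {c c' : ℝ} (hc : r * c ≤ c') (i : Option ι) :
    PLe (s.cndu U h0 c i) ((s.rst (U.A h0.le) (U.A_pos h0.le)).cnd c' i) := by
  rcases i with _ | i
  · exact U.pt_PLe h0.le
  · exact ((s.lf i).rst (U.A h0.le) (U.A_pos h0.le)).win_mono hc

/-- LABELS OF THE IMAGE ARE LABELS OF THE SYSTEM -/
theorem MSys.DMc.of_imu {c c' : ℝ} (hc : r * c ≤ c')
    {l : Lab ((S.rest (U.A h0.le)).chg (S.rest (U.A h0.le)).tr r h0)} (h : (s.imu U h0 h1 hκ hE).DMc c l) :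
    (s.rst (U.A h0.le) (U.A_pos h0.le)).DMc c' (untL l) :=
  Lab.DMf.mono (MSys.DMc_imu_iff.mp h) fun i => ⟨i, MSys.cndu_le hc i⟩

/-- images of connected systems are connected -/
theorem MSys.Con.imu {c c' : ℝ} (hc : r * c ≤ c') (h : (s.rst (U.A h0.le) (U.A_pos h0.le)).Con c') :
    (s.imu U h0 h1 hκ hE).Con c := by
  intro l hl
  have h2 := h _ (MSys.DMc.of_imu hc hl)
  exact nul_trn.mpr h2

/-- restrictions of connected systems to an event are connected -/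
theorem MSys.Con.rst {c : ℝ} (h : s.Con c) (A : ∀ k, (S.F k).Ω → Prop) (hA : 0 < ul (S.pr A)) :
    (s.rst A hA).Con c := by
  have h1 : Lab.Conf (fun i => (s.cnd c i).rest A) := Lab.Conf.rest (i := none) h hA (pcd_Bd s.Q)
  have e1 : (s.rst A hA).cnd c = fun i => (s.cnd c i).rest A := funext fun i => s.rst_cnd A hA c i
  unfold MSys.Con
  rw [e1]
  exact h1

/-- labels of the restriction -/
theorem MSys.DMc_rst_iff {c : ℝ} {A : ∀ k, (S.F k).Ω → Prop} {hA : 0 < ul (S.pr A)} {l : Lab (S.rest A)} :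
    (s.rst A hA).DMc c l ↔ l.DMf (fun i => (s.cnd c i).rest A) := by
  have e1 : (s.rst A hA).cnd c = fun i => (s.cnd c i).rest A := funext fun i => s.rst_cnd A hA c i
  unfold MSys.DMc
  rw [e1]

theorem MSys.IsKap_rst_iff {c : ℝ} {A : ∀ k, (S.F k).Ω → Prop} {hA : 0 < ul (S.pr A)} {l : Lab (S.rest A)} :
    (s.rst A hA).IsKap c l ↔ l.IsMaxf (fun i => (s.cnd c i).rest A) := by
  have e1 : (s.rst A hA).cnd c = fun i => (s.cnd c i).rest A := funext fun i => s.rst_cnd A hA c i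
  unfold MSys.IsKap
  rw [e1]

/-- A TAME POLYNOMIAL LEFT INVERSE: the cell of the point is a function of the cell of the new point -/
theorem UMap.inv_PLe (U : UMap S s.Q M' κ r) (hr : 0 ≤ r) (P : PMap S M' M κ') {b : ℝ} (hb : b ≤ r)
    (hP : ∃ K : ℕ → ℝ, S.Sub K ∧ ∀ᶠ k in UF, ∀ ω, (S.F k).μ ω ≠ 0 → U.A hr k ω → ∀ i,
      |P.ev k ω (fun j => MvPolynomial.eval (s.Q.v k ω) (U.G k ω j)) i - s.Q.v k ω i| ≤ K k * S.dl r k) :
    PLe (pcr (s.Q.rest (U.A hr)) b) (pcr (U.pt hr) b) := by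
  obtain ⟨K, hK, hk1⟩ := hP
  obtain ⟨L, hL, hk2⟩ := P.ev_lip U.sub
  refine PLe_cell (S := S.rest (U.A hr)) (s.Q.rest (U.A hr)) b (fun k => Setoid.ker ((U.pt hr).cellv b k))
    (fun k => L k + K k + K k) ((hL.add hK).add hK) ?_
  filter_upwards [U.A_supp hr, P.fn, hk1, hk2, hK.1] with k h1 h2 h3 h4 hK0 ω ω' a b' z c i
  obtain ⟨a1, a2⟩ := h1 ω a
  obtain ⟨b1, b2⟩ := h1 ω' b'
  have h5 := h3 ω a1 a2 i
  have h6 := h3 ω' b1 b2 i
  have e1 : P.ev k ω' = P.ev k ω := by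
    funext x
    unfold PMap.ev
    rw [h2 ω ω' a1 b1 z]
  rw [e1] at h6
  have hd := S.dl_pos b k
  have h7 := h4 ω a1 (fun j => MvPolynomial.eval (s.Q.v k ω) (U.G k ω j))
    (fun j => MvPolynomial.eval (s.Q.v k ω') (U.G k ω' j)) (fun j => (a2.1 j).1) (fun j => (b2.1 j).1)
    (S.dl b k) hd.le (fun j => abs_sub_le_of_floor_eq hd (congrFun c j)) i
  have h8 : S.dl r k ≤ S.dl b k := S.dl_anti hb k
  have h9 : K k * S.dl r k ≤ K k * S.dl b k := mul_le_mul_of_nonneg_left h8 hK0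
  show |s.Q.v k ω i - s.Q.v k ω' i| ≤ (L k + K k + K k) * S.dl b k
  have e2 : s.Q.v k ω i - s.Q.v k ω' i =
      (P.ev k ω (fun j => MvPolynomial.eval (s.Q.v k ω) (U.G k ω j)) i -
        P.ev k ω (fun j => MvPolynomial.eval (s.Q.v k ω') (U.G k ω' j)) i) -
      (P.ev k ω (fun j => MvPolynomial.eval (s.Q.v k ω) (U.G k ω j)) i - s.Q.v k ω i) +
      (P.ev k ω (fun j => MvPolynomial.eval (s.Q.v k ω') (U.G k ω' j)) i - s.Q.v k ω' i) := by ring
  rw [e2]
  refine (abs_add_le _ _).trans ?_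
  have h10 := abs_sub (P.ev k ω (fun j => MvPolynomial.eval (s.Q.v k ω) (U.G k ω j)) i -
        P.ev k ω (fun j => MvPolynomial.eval (s.Q.v k ω') (U.G k ω' j)) i)
      (P.ev k ω (fun j => MvPolynomial.eval (s.Q.v k ω) (U.G k ω j)) i - s.Q.v k ω i)
  have e3 : (L k + K k + K k) * S.dl b k = L k * S.dl b k + K k * S.dl b k + K k * S.dl b k := by ring
  rw [e3]
  linarith

end

end

end Pool.Agent.Helper84.MT
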