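import Pool.Agent.Helper84.MT.Seg

/-! [IMU], one polynomial: growth of a polynomial around a point; values on the closed cube from values on the open
cube. -/

set_option autoImplicit false

namespace Pool.Agent.Helper84.MT

open Finset Set

noncomputable section

/-- growth of the increment of a polynomial around a point -/
theorem ev_near {M κ : ℕ} {B : ℝ} (hB : 1 ≤ B) (hs : ∀ P : MvPolynomial (Fin M) ℝ, P.totalDegree ≤ κ →
    ∀ y z : Fin M → ℝ, RemS κ B (fun u => MvPolynomial.eval (fun j => y j + u * (z j - y j)) P) ∧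
      BmS B (fun u => MvPolynomial.eval (fun j => y j + u * (z j - y j)) P))
    (P : MvPolynomial (Fin M) ℝ) (hP : P.totalDegree ≤ κ) (c : Fin M → ℝ) {d ε L : ℝ} (hd : 0 ≤ d) (hL : 1 ≤ L)
    (h : ∀ x : Fin M → ℝ, (∀ i, |x i - c i| ≤ d) → |MvPolynomial.eval x P - MvPolynomial.eval c P| ≤ ε)
    (x : Fin M → ℝ) (hx : ∀ i, |x i - c i| ≤ L * d) :
    |MvPolynomial.eval x P - MvPolynomial.eval c P| ≤ B * ((κ + 1) * L) ^ κ * ε := by
  classical
  set P' : MvPolynomial (Fin M) ℝ := P - MvPolynomial.C (MvPolynomial.eval c P) with hP'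
  have hdeg : P'.totalDegree ≤ κ := by
    refine (MvPolynomial.totalDegree_sub _ _).trans (max_le hP ?_)
    rw [MvPolynomial.totalDegree_C]
    exact Nat.zero_le _
  have hev : ∀ y, MvPolynomial.eval y P' = MvPolynomial.eval y P - MvPolynomial.eval c P := by
    intro y
    rw [hP', map_sub, MvPolynomial.eval_C]
  have hL0 : 0 < L := by linarith
  have hK : (0 : ℝ) < (κ + 1) * L := by positivity
  have h1 := (hs P' hdeg c x).1 (fun i : Fin (κ + 1) => (i : ℝ) / ((κ + 1) * L)) (1 / ((κ + 1) * L)) ε (by positivity)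
    (fun i => by
      have hi : ((i : ℕ) : ℝ) ≤ κ + 1 := by
        have := i.2
        exact_mod_cast (show (i : ℕ) ≤ κ + 1 by omega)
      constructor
      · positivity
      · rw [div_le_one hK]
        have : (κ + 1 : ℝ) * 1 ≤ (κ + 1) * L := mul_le_mul_of_nonneg_left hL (by positivity)
        linarith)
    (fun i j hij => by
      rw [← sub_div, abs_div, abs_of_pos hK]
      apply div_le_div_of_nonneg_right _ hK.le
      have h2 : (i : ℕ) ≠ (j : ℕ) := fun h => hij (Fin.ext h)
      have h3 : (1 : ℤ) ≤ |((i : ℕ) : ℤ) - ((j : ℕ) : ℤ)| := by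
        apply Int.one_le_abs
        intro h4
        apply h2
        omega
      have h5 : ((1 : ℤ) : ℝ) ≤ ((|((i : ℕ) : ℤ) - ((j : ℕ) : ℤ)| : ℤ) : ℝ) := by exact_mod_cast h3
      rw [Int.cast_abs] at h5
      push_cast at h5
      exact h5)
    (fun i => by
      show |MvPolynomial.eval _ P'| ≤ ε
      rw [hev]
      apply h
      intro j
      have hi : ((i : ℕ) : ℝ) ≤ κ + 1 := by
        have := i.2
        exact_mod_cast (show (i : ℕ) ≤ κ + 1 by omega)
      have hi0 : (0 : ℝ) ≤ ((i : ℕ) : ℝ) := Nat.cast_nonneg _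
      have e1 : c j + ((i : ℕ) : ℝ) / ((κ + 1) * L) * (x j - c j) - c j = ((i : ℕ) : ℝ) / ((κ + 1) * L) * (x j - c j) := by
        ring
      rw [e1, abs_mul, abs_of_nonneg (by positivity)]
      have h6 : ((i : ℕ) : ℝ) / ((κ + 1) * L) * |x j - c j| ≤ ((i : ℕ) : ℝ) / ((κ + 1) * L) * (L * d) :=
        mul_le_mul_of_nonneg_left (hx j) (by positivity)
      refine h6.trans ?_
      rw [div_mul_eq_mul_div, div_le_iff₀ hK]
      have : ((i : ℕ) : ℝ) * (L * d) ≤ (κ + 1) * (L * d) := mul_le_mul_of_nonneg_right hi (by positivity)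
      linarith)
    1 ⟨zero_le_one, le_rfl⟩
  have e2 : (fun j => c j + 1 * (x j - c j)) = x := by
    funext j
    ring
  simp only [e2] at h1
  rw [hev] at h1
  rw [one_div_one_div] at h1
  exact h1

/-- the value at a point of the closed cube from the values on the open cube -/
theorem closed_of_open {e N : ℕ} {B A : ℝ} {f : (Fin e → ℝ) → ℝ} {Y z : Fin e → ℝ}
    (hs : RemS N B (fun u => f (fun i => Y i + u * (z i - Y i)))) (hz : ∀ i, |z i - Y i| ≤ 1)
    (h : ∀ y : Fin e → ℝ, (∀ i, |y i - Y i| < 1) → |f y| ≤ A) : |f z| ≤ B * (2 * (N + 1)) ^ N * A := by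
  have hK : (0 : ℝ) < 2 * (N + 1) := by positivity
  have h1 := hs (fun i : Fin (N + 1) => (i : ℝ) / (2 * (N + 1))) (1 / (2 * (N + 1))) A (by positivity)
    (fun i => by
      have hi : ((i : ℕ) : ℝ) ≤ N + 1 := by
        have := i.2
        exact_mod_cast (show (i : ℕ) ≤ N + 1 by omega)
      constructor
      · positivity
      · rw [div_le_one hK]
        linarith)
    (fun i j hij => by
      rw [← sub_div, abs_div, abs_of_pos hK]
      apply div_le_div_of_nonneg_right _ hK.le
      have h2 : (i : ℕ) ≠ (j : ℕ) := fun h => hij (Fin.ext h)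
      have h3 : (1 : ℤ) ≤ |((i : ℕ) : ℤ) - ((j : ℕ) : ℤ)| := by
        apply Int.one_le_abs
        intro h4
        apply h2
        omega
      have h5 : ((1 : ℤ) : ℝ) ≤ ((|((i : ℕ) : ℤ) - ((j : ℕ) : ℤ)| : ℤ) : ℝ) := by exact_mod_cast h3
      rw [Int.cast_abs] at h5
      push_cast at h5
      exact h5)
    (fun i => by
      apply h
      intro j
      have hi : ((i : ℕ) : ℝ) ≤ N + 1 := by
        have := i.2
        exact_mod_cast (show (i : ℕ) ≤ N + 1 by omega)
      have e1 : Y j + ((i : ℕ) : ℝ) / (2 * (N + 1)) * (z j - Y j) - Y j = ((i : ℕ) : ℝ) / (2 * (N + 1)) * (z j - Y j) := by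
        ring
      rw [e1, abs_mul, abs_of_nonneg (by positivity)]
      have h6 : ((i : ℕ) : ℝ) / (2 * (N + 1)) ≤ 1 / 2 := by
        rw [div_le_iff₀ hK]
        linarith
      have h7 := hz j
      have h8 := abs_nonneg (z j - Y j)
      have h9 : (0 : ℝ) ≤ ((i : ℕ) : ℝ) / (2 * (N + 1)) := by positivity
      nlinarith)
    1 ⟨zero_le_one, le_rfl⟩
  have e2 : (fun j => Y j + 1 * (z j - Y j)) = z := by
    funext j
    ring
  simp only [e2] at h1
  rw [one_div_one_div] at h1
  exact h1

end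

end Pool.Agent.Helper84.MT
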