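import Pool.Agent.Helper62.IMU.Imu

/-! [IMU] the image of a system of leaves under a polynomial map with arbitrary coefficients, truncated to the level `r`,
on a typical event. -/

set_option autoImplicit false

namespace Pool.Agent.Helper84.MT

open Finset Filter Topology Matrix Pool.Agent.Helper69.RK Pool.Agent.Helper31.EC Pool.Agent.Helper31.EC.Sp
open Pool.Agent.Helper40.EL Pool.Agent.Helper89.LX Pool.Agent.Helper3.LF
open Pool.Agent.Helper52.SL (untF tnF untL tnL nul_trn cellv_chg)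

noncomputable section

variable {S T : Sp} {M M' κ : ℕ} {E E' : ℕ → ℕ} {ι : Type} {r : ℝ}

/-! ### restriction to an event -/

/-- a type of leaves on an event -/
def Leaf.rst {Q : S.VV M} (l : Leaf S Q E) (A : ∀ k, (S.F k).Ω → Prop) (hA : 0 < ul (S.pr A)) :
    Leaf (S.rest A) (Q.rest A) E := (l.im (Pj.id S) A hA).pull (Sp.imq (Pj.id S) A)

/-- a system of leaves on an event -/
def MSys.rst (s : MSys S M E ι) (A : ∀ k, (S.F k).Ω → Prop) (hA : 0 < ul (S.pr A)) : MSys (S.rest A) M E ι :=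
  ⟨s.Q.rest A, fun i => (s.lf i).rst A hA⟩

theorem Leaf.rst_e {Q : S.VV M} (l : Leaf S Q E) (A : ∀ k, (S.F k).Ω → Prop) (hA : 0 < ul (S.pr A)) :
    (l.rst A hA).e = l.e := rfl

theorem Leaf.rst_F {Q : S.VV M} (l : Leaf S Q E) (A : ∀ k, (S.F k).Ω → Prop) (hA : 0 < ul (S.pr A)) :
    (l.rst A hA).F = l.F := rfl

theorem MSys.rst_cnd (s : MSys S M E ι) (A : ∀ k, (S.F k).Ω → Prop) (hA : 0 < ul (S.pr A)) (c : ℝ) (i : Option ι) :
    (s.rst A hA).cnd c i = (s.cnd c i).rest A := by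
  have h1 : (s.im (Pj.id S) A hA).cnd c i = (s.cnd c i).im (Pj.id S) A := congrFun (MSys.cnd_im (Pj.id S) A hA s c) i
  have h2 : ((s.im (Pj.id S) A hA).pull (Sp.imq (Pj.id S) A)).cnd c i =
      ((s.im (Pj.id S) A hA).cnd c i).pull (Sp.imq (Pj.id S) A) :=
    congrFun (MSys.cnd_pull (Sp.imq (Pj.id S) A) (s.im (Pj.id S) A hA) c) i
  have h3 : (s.rst A hA).cnd c i = ((s.im (Pj.id S) A hA).pull (Sp.imq (Pj.id S) A)).cnd c i := by
    rcases i with _ | i <;> rfl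
  rw [h3, h2, h1, Lab.im_id_pull]

/-! ### the image of one type, truncated -/

/-- THE IMAGE OF A TYPE under a polynomial map with arbitrary coefficients, truncated to the level `r`: the chart is tame
on the closed cube and hits the new point up to `2^(-rn)` -/
def Leaf.imu {Q : S.VV M} (l : Leaf S Q E) (h0 : 0 < r) (h1 : r ≤ 1) (hκ : 1 ≤ κ) (hE : ∀ D, E (κ * D) ≤ E' D)
    (G : ∀ k, (S.F k).Ω → Fin M' → MvPolynomial (Fin M) ℝ) (deg : ∀ k ω j, (G k ω j).totalDegree ≤ κ)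
    (fn : ∀ᶠ k in UF, ∀ ω ω', (S.F k).μ ω ≠ 0 → (S.F k).μ ω' ≠ 0 → (S.F k).Z ω ω' → G k ω = G k ω')
    (Q' : S.VV M') (hb : ∃ K : ℕ → ℝ, S.Sub K ∧ ∀ᶠ k in UF, ∀ ω, (S.F k).μ ω ≠ 0 → ∀ j,
      |Q'.v k ω j - MvPolynomial.eval (l.F k ω (l.Y.v k ω)) (G k ω j)| ≤ K k * S.dl r k ∧
      ∀ y : Fin l.e → ℝ, (∀ i, |y i - l.Y.v k ω i| ≤ 1) → |MvPolynomial.eval (l.F k ω y) (G k ω j)| ≤ K k) :
    Leaf (S.chg S.tr r h0) (Q'.chg S.tr r h0) E' where
  e := l.e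
  he := by
    have h1 := hE 0
    rw [mul_zero] at h1
    exact l.he.trans h1
  La := l.La
  Y := l.Y.chg S.tr r h0
  F := fun k ω y j => MvPolynomial.eval (l.F k ω y) (G k ω j)
  fn := by
    filter_upwards [l.fn, fn] with k hk hk' ω ω' h1 h2 h3 h4
    funext y j
    rw [hk ω ω' h1 h2 h3.2 h4, hk' ω ω' h1 h2 h3.2]
  bd := by
    obtain ⟨K, hK, hb⟩ := hb
    refine ⟨K, chg_sub S.tr r h0 hK, ?_⟩
    filter_upwards [hb] with k hk ω hω y hy j
    exact (hk ω hω j).2 y hy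
  al := fun k ω D => l.al k ω (κ * D)
  alg := by
    filter_upwards [l.alg] with k hk ω hω
    exact (hk ω hω).scale hκ
  crF := by
    filter_upwards [l.alg, l.crF] with k h1 h2 ω hω j
    have h3 := (h1 ω hω).eval _ (h2 ω hω) (G k ω j) (deg k ω j)
    rw [one_mul] at h3
    show _ ∈ l.al k ω (κ * 1)
    rw [mul_one]
    exact h3
  seg := by
    intro D
    obtain ⟨K, hK, hb⟩ := l.seg (κ * D)
    refine ⟨K, chg_sub S.tr r h0 hK, ?_⟩
    filter_upwards [hb, hK.1] with k hk hK0 ω hω f hf y z hy hz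
    obtain ⟨h1, h2⟩ := hk ω hω f hf y z hy hz
    exact ⟨h1.mono (hE D) hK0 le_rfl, h2⟩
  pt := by
    obtain ⟨K, hK, hb⟩ := hb
    refine ⟨K, chg_sub S.tr r h0 hK, ?_⟩
    filter_upwards [hb] with k hk ω hω j
    rw [chg_dl, mul_one]
    exact (hk ω hω j).1
  full := (l.trn r h0 h1).full

/-! ### the event and the system -/

namespace UMap

section
variable [Countable ι] {s : MSys S M E ι} (U : UMap S s.Q M' κ r) (hr : 0 ≤ r)

/-- constants of the charts -/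
def Kc (i : ι) : ℕ → ℝ := (U.chart (s.lf i) hr).choose

theorem Kc_sub (i : ι) : S.Sub (U.Kc hr i) := (U.chart (s.lf i) hr).choose_spec.1

/-- the event of one type -/
def ev1 (i : ι) (k : ℕ) (ω : (S.F k).Ω) : Prop := ∀ j, |MvPolynomial.eval (s.Q.v k ω) (U.G k ω j) -
      MvPolynomial.eval ((s.lf i).F k ω ((s.lf i).Y.v k ω)) (U.G k ω j)| ≤ U.Kc hr i k * S.dl r k ∧
      ∀ y : Fin (s.lf i).e → ℝ, (∀ a, |y a - (s.lf i).Y.v k ω a| ≤ 1) →
        |MvPolynomial.eval ((s.lf i).F k ω y) (U.G k ω j)| ≤ U.Kc hr i k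

theorem ev1_typ (i : ι) : Typ (U.ev1 hr i) := (U.chart (s.lf i) hr).choose_spec.2

/-- THE TYPICAL EVENT of the image -/
def A (k : ℕ) (ω : (S.F k).Ω) : Prop := (∀ j, |MvPolynomial.eval (s.Q.v k ω) (U.G k ω j)| ≤ U.K k ∧
    ∀ x : Fin M → ℝ, (∀ i, |x i - s.Q.v k ω i| ≤ S.dl 1 k) →
      |MvPolynomial.eval x (U.G k ω j) - MvPolynomial.eval (s.Q.v k ω) (U.G k ω j)| ≤ U.K k * S.dl r k) ∧
  (typ_count (U.ev1 hr) (U.ev1_typ hr)).choose k ω

theorem A_typ : Typ (U.A hr) := U.typ.and (typ_count (U.ev1 hr) (U.ev1_typ hr)).choose_spec.1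

theorem A_ev (i : ι) : ∀ᶠ k in UF, ∀ ω, U.A hr k ω → U.ev1 hr i k ω := by
  filter_upwards [(typ_count (U.ev1 hr) (U.ev1_typ hr)).choose_spec.2 i] with k hk ω hω
  exact hk ω hω.2

theorem A_pos : 0 < ul (S.pr (U.A hr)) := Sp.ul_pr_typ_pos _ (U.A_typ hr)

theorem A_supp : ∀ᶠ k in UF, ∀ ω, ((S.rest (U.A hr)).F k).μ ω ≠ 0 → (S.F k).μ ω ≠ 0 ∧ U.A hr k ω := by
  filter_upwards [pb_ne_zero (U.A_pos hr)] with k hk ω hω
  have h1 := (S.F k).rest_supp (U.A hr k) ω hω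
  exact ⟨h1.1, h1.2 hk⟩

/-- the new point -/
def pt : (S.rest (U.A hr)).VV M' where
  v := fun k ω j => MvPolynomial.eval (s.Q.v k ω) (U.G k ω j)
  bd := by
    refine ⟨U.K, U.sub, ?_⟩
    filter_upwards [U.A_supp hr] with k hk ω hω j
    exact ((hk ω hω).2.1 j).1

theorem pt_v (k : ℕ) (ω : (S.F k).Ω) (j : Fin M') :
    (U.pt hr).v k ω j = MvPolynomial.eval (s.Q.v k ω) (U.G k ω j) := rfl

end

end UMap

/-- THE IMAGE OF A SYSTEM OF LEAVES under a polynomial map with arbitrary coefficients, truncated to the level `r`, on a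
typical event -/
def MSys.imu [Countable ι] (s : MSys S M E ι) (U : UMap S s.Q M' κ r) (h0 : 0 < r) (h1 : r ≤ 1) (hκ : 1 ≤ κ)
    (hE : ∀ D, E (κ * D) ≤ E' D) :
    MSys ((S.rest (U.A h0.le)).chg (S.rest (U.A h0.le)).tr r h0) M' E' ι :=
  ⟨(U.pt h0.le).chg (S.rest (U.A h0.le)).tr r h0, fun i =>
    ((s.lf i).rst (U.A h0.le) (U.A_pos h0.le)).imu h0 h1 hκ hE U.G U.deg (by
      filter_upwards [U.fn, U.A_supp h0.le] with k hk hs ω ω' a b z
      exact hk ω ω' (hs ω a).1 (hs ω' b).1 z) (U.pt h0.le) (by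
      refine ⟨U.Kc h0.le i, U.Kc_sub h0.le i, ?_⟩
      filter_upwards [U.A_supp h0.le, U.A_ev h0.le i] with k hs hk ω hω j
      exact hk ω (hs ω hω).2 j)⟩

section
variable [Countable ι] {s : MSys S M E ι} {U : UMap S s.Q M' κ r} {h0 : 0 < r} {h1 : r ≤ 1} {hκ : 1 ≤ κ}
  {hE : ∀ D, E (κ * D) ≤ E' D}

theorem MSys.imu_e (i : ι) : ((s.imu U h0 h1 hκ hE).lf i).e = (s.lf i).e := rfl

theorem MSys.imu_La (i : ι) : ((s.imu U h0 h1 hκ hE).lf i).La = (s.lf i).La := rfl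

theorem MSys.imu_Y (i : ι) (k : ℕ) (ω : (S.F k).Ω) : ((s.imu U h0 h1 hκ hE).lf i).Y.v k ω = (s.lf i).Y.v k ω := rfl

theorem MSys.imu_F (i : ι) (k : ℕ) (ω : (S.F k).Ω) (y : Fin (s.lf i).e → ℝ) (j : Fin M') :
    ((s.imu U h0 h1 hκ hE).lf i).F k ω y j = MvPolynomial.eval ((s.lf i).F k ω y) (U.G k ω j) := rfl

theorem MSys.imu_Q (k : ℕ) (ω : (S.F k).Ω) (j : Fin M') :
    (s.imu U h0 h1 hκ hE).Q.v k ω j = MvPolynomial.eval (s.Q.v k ω) (U.G k ω j) := rfl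

/-- the windows are the windows of the truncation on the event -/
theorem MSys.imu_win (c : ℝ) (i : ι) : (s.imu U h0 h1 hκ hE).cnd c (some i) =
    ((s.rst (U.A h0.le) (U.A_pos h0.le)).trn r h0 h1).cnd c (some i) := rfl

end

end

end Pool.Agent.Helper84.MT
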